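import Mathlib

/-! Geometric configurations of points and lines in the real projective plane with four lines
through every point and five points on every line. -/

namespace Pool.Agent.Lib.MP_ec4eff_co.Seven

open scoped LinearAlgebra.Projectivization

/-- The points of the real projective plane. -/
abbrev Pt : Type := ℙ ℝ (Fin 3 → ℝ)

/-- The lines of the real projective plane: the planes through the origin of the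
three-dimensional space. -/
abbrev Ln : Type := {W : Submodule ℝ (Fin 3 → ℝ) // Module.finrank ℝ W = 2}

/-- The point `p` lies on the line `l`. -/
def Inc (p : Pt) (l : Ln) : Prop := p.submodule ≤ l.1

/-- `P` and `L` form a geometric configuration `((5r)_4, (4r)_5)`. -/
def IsConfig (r : ℕ) (P : Set Pt) (L : Set Ln) : Prop :=
  P.Finite ∧ L.Finite ∧ P.ncard = 5 * r ∧ L.ncard = 4 * r ∧
    (∀ p ∈ P, {l | l ∈ L ∧ Inc p l}.ncard = 4) ∧ ∀ l ∈ L, {p | p ∈ P ∧ Inc p l}.ncard = 5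

/-! ### From coordinates to configurations -/

section Coord

variable {R : Type} [CommRing R]

/-- The dot product of two triples. -/
def dot (u v : R × R × R) : R := u.1 * v.1 + u.2.1 * v.2.1 + u.2.2 * v.2.2

variable (φ : R →+* ℝ)

/-- The real vector of a triple. -/
def vec (u : R × R × R) : Fin 3 → ℝ := ![φ u.1, φ u.2.1, φ u.2.2]

/-- The linear form of a triple. -/
noncomputable def form (u : R × R × R) : (Fin 3 → ℝ) →ₗ[ℝ] ℝ :=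
  φ u.1 • LinearMap.proj 0 + φ u.2.1 • LinearMap.proj 1 + φ u.2.2 • LinearMap.proj 2

lemma form_vec (u v : R × R × R) : form φ u (vec φ v) = φ (dot v u) := by
  simp only [form, vec, dot, LinearMap.add_apply, LinearMap.smul_apply, LinearMap.proj_apply,
    map_add, map_mul, smul_eq_mul]
  simp
  ring

variable (hφ : Function.Injective φ)

include hφ in
lemma vec_ne {u : R × R × R} (h : u ≠ 0) : vec φ u ≠ 0 := by
  intro h0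
  apply h
  have h1 : φ u.1 = 0 := by simpa [vec] using congrFun h0 0
  have h2 : φ u.2.1 = 0 := by simpa [vec] using congrFun h0 1
  have h3 : φ u.2.2 = 0 := by simpa [vec] using congrFun h0 2
  have e1 := hφ (h1.trans (map_zero φ).symm)
  have e2 := hφ (h2.trans (map_zero φ).symm)
  have e3 := hφ (h3.trans (map_zero φ).symm)
  exact Prod.ext e1 (Prod.ext e2 e3)

include hφ in
lemma form_ne {u : R × R × R} (h : u ≠ 0) : form φ u ≠ 0 := by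
  intro h0
  apply h
  have h1 : φ u.1 = 0 := by
    simpa [form] using LinearMap.congr_fun h0 ![1, 0, 0]
  have h2 : φ u.2.1 = 0 := by
    simpa [form] using LinearMap.congr_fun h0 ![0, 1, 0]
  have h3 : φ u.2.2 = 0 := by
    simpa [form] using LinearMap.congr_fun h0 ![0, 0, 1]
  have e1 := hφ (h1.trans (map_zero φ).symm)
  have e2 := hφ (h2.trans (map_zero φ).symm)
  have e3 := hφ (h3.trans (map_zero φ).symm)
  exact Prod.ext e1 (Prod.ext e2 e3)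

lemma finrank_ker_form {f : (Fin 3 → ℝ) →ₗ[ℝ] ℝ} (hf : f ≠ 0) :
    Module.finrank ℝ (LinearMap.ker f) = 2 := by
  have h1 := f.finrank_range_add_finrank_ker
  have h2 : LinearMap.range f = ⊤ := LinearMap.range_eq_top.2 (LinearMap.surjective hf)
  rw [h2, finrank_top, Module.finrank_self, Module.finrank_fin_fun] at h1
  omega

/-- The point with given coordinates. -/
noncomputable def pt (u : R × R × R) (h : u ≠ 0) : Pt :=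
  Projectivization.mk ℝ (vec φ u) (vec_ne φ hφ h)

/-- The line with given coordinates. -/
noncomputable def ln (u : R × R × R) (h : u ≠ 0) : Ln :=
  ⟨LinearMap.ker (form φ u), finrank_ker_form (form_ne φ hφ h)⟩

lemma inc_iff {u v : R × R × R} (hu : u ≠ 0) (hv : v ≠ 0) :
    Inc (pt φ hφ u hu) (ln φ hφ v hv) ↔ dot u v = 0 := by
  unfold Inc pt ln
  rw [Projectivization.submodule_mk, Submodule.span_singleton_le_iff_mem, LinearMap.mem_ker,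
    form_vec, map_eq_zero_iff φ hφ]

include φ hφ in
/-- A combinatorial criterion. -/
theorem config_of [DecidableEq R] {np nl r : ℕ} (v : Fin np → R × R × R) (w : Fin nl → R × R × R)
    (hnp : np = 5 * r) (hnl : nl = 4 * r)
    (hv : ∀ i, v i ≠ 0) (hw : ∀ j, w j ≠ 0)
    (hvd : ∀ i i', i ≠ i' → ∃ j, dot (v i) (w j) = 0 ∧ dot (v i') (w j) ≠ 0)
    (hwd : ∀ j j', j ≠ j' → ∃ i, dot (v i) (w j) = 0 ∧ dot (v i) (w j') ≠ 0)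
    (h4 : ∀ i, (Finset.univ.filter fun j => dot (v i) (w j) = 0).card = 4)
    (h5 : ∀ j, (Finset.univ.filter fun i => dot (v i) (w j) = 0).card = 5) :
    ∃ P L, IsConfig r P L := by
  classical
  let p : Fin np → Pt := fun i => pt φ hφ (v i) (hv i)
  let l : Fin nl → Ln := fun j => ln φ hφ (w j) (hw j)
  have hinc : ∀ i j, Inc (p i) (l j) ↔ dot (v i) (w j) = 0 := fun i j => inc_iff φ hφ _ _
  have hp : Function.Injective p := by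
    intro i i' h
    by_contra hne
    obtain ⟨j, h1, h2⟩ := hvd i i' hne
    rw [← hinc] at h1
    rw [ne_eq, ← hinc, ← h] at h2
    exact h2 h1
  have hl : Function.Injective l := by
    intro j j' h
    by_contra hne
    obtain ⟨i, h1, h2⟩ := hwd j j' hne
    rw [← hinc] at h1
    rw [ne_eq, ← hinc, ← h] at h2
    exact h2 h1
  refine ⟨Set.range p, Set.range l, Set.finite_range p, Set.finite_range l, ?_, ?_, ?_, ?_⟩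
  · rw [← Set.image_univ, Set.ncard_image_of_injective _ hp, Set.ncard_univ, Nat.card_fin, hnp]
  · rw [← Set.image_univ, Set.ncard_image_of_injective _ hl, Set.ncard_univ, Nat.card_fin, hnl]
  · rintro _ ⟨i, rfl⟩
    have : {m | m ∈ Set.range l ∧ Inc (p i) m} =
        l '' (Finset.univ.filter fun j => dot (v i) (w j) = 0 : Finset (Fin nl)) := by
      ext m
      constructor
      · rintro ⟨⟨j, rfl⟩, hj⟩
        exact ⟨j, by simpa using (hinc i j).1 hj, rfl⟩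
      · rintro ⟨j, hj, rfl⟩
        exact ⟨⟨j, rfl⟩, (hinc i j).2 (by simpa using hj)⟩
    rw [this, Set.ncard_image_of_injective _ hl, Set.ncard_coe_finset, h4]
  · rintro _ ⟨j, rfl⟩
    have : {m | m ∈ Set.range p ∧ Inc m (l j)} =
        p '' (Finset.univ.filter fun i => dot (v i) (w j) = 0 : Finset (Fin np)) := by
      ext m
      constructor
      · rintro ⟨⟨i, rfl⟩, hi⟩
        exact ⟨i, by simpa using (hinc i j).1 hi, rfl⟩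
      · rintro ⟨i, hi, rfl⟩
        exact ⟨⟨i, rfl⟩, (hinc i j).2 (by simpa using hi)⟩
    rw [this, Set.ncard_image_of_injective _ hp, Set.ncard_coe_finset, h5]

end Coord

/-! ### The ring `ℤ[b]`, `b ^ 3 = b ^ 2 + b + 1` -/

/-- The element `x + y b + z b ^ 2`, where `b ^ 3 = b ^ 2 + b + 1`. -/
@[ext]
structure Tri : Type where
  /-- coefficient of `1` -/
  x : ℤ
  /-- coefficient of `b` -/
  y : ℤ
  /-- coefficient of `b ^ 2` -/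
  z : ℤ
  deriving DecidableEq

namespace Tri

instance : Zero Tri := ⟨⟨0, 0, 0⟩⟩
instance : One Tri := ⟨⟨1, 0, 0⟩⟩
instance : Add Tri := ⟨fun u v => ⟨u.x + v.x, u.y + v.y, u.z + v.z⟩⟩
instance : Neg Tri := ⟨fun u => ⟨-u.x, -u.y, -u.z⟩⟩
instance : Mul Tri := ⟨fun u v =>
  ⟨u.x * v.x + (u.y * v.z + u.z * v.y) + u.z * v.z,
    u.x * v.y + u.y * v.x + (u.y * v.z + u.z * v.y) + 2 * (u.z * v.z),
    u.x * v.z + u.y * v.y + u.z * v.x + (u.y * v.z + u.z * v.y) + 2 * (u.z * v.z)⟩⟩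

@[simp] lemma zero_x : (0 : Tri).x = 0 := rfl
@[simp] lemma zero_y : (0 : Tri).y = 0 := rfl
@[simp] lemma zero_z : (0 : Tri).z = 0 := rfl
@[simp] lemma one_x : (1 : Tri).x = 1 := rfl
@[simp] lemma one_y : (1 : Tri).y = 0 := rfl
@[simp] lemma one_z : (1 : Tri).z = 0 := rfl
@[simp] lemma add_x (u v : Tri) : (u + v).x = u.x + v.x := rfl
@[simp] lemma add_y (u v : Tri) : (u + v).y = u.y + v.y := rfl
@[simp] lemma add_z (u v : Tri) : (u + v).z = u.z + v.z := rfl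
@[simp] lemma neg_x (u : Tri) : (-u).x = -u.x := rfl
@[simp] lemma neg_y (u : Tri) : (-u).y = -u.y := rfl
@[simp] lemma neg_z (u : Tri) : (-u).z = -u.z := rfl
@[simp] lemma mul_x (u v : Tri) :
    (u * v).x = u.x * v.x + (u.y * v.z + u.z * v.y) + u.z * v.z := rfl
@[simp] lemma mul_y (u v : Tri) : (u * v).y =
    u.x * v.y + u.y * v.x + (u.y * v.z + u.z * v.y) + 2 * (u.z * v.z) := rfl
@[simp] lemma mul_z (u v : Tri) : (u * v).z =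
    u.x * v.z + u.y * v.y + u.z * v.x + (u.y * v.z + u.z * v.y) + 2 * (u.z * v.z) := rfl

instance : CommRing Tri where
  zero := 0
  one := 1
  add := (· + ·)
  mul := (· * ·)
  neg := fun u => -u
  add_assoc u v w := by ext <;> simp <;> ring
  zero_add u := by ext <;> simp
  add_zero u := by ext <;> simp
  add_comm u v := by ext <;> simp <;> ring
  neg_add_cancel u := by ext <;> simp
  mul_assoc u v w := by ext <;> simp <;> ring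
  one_mul u := by ext <;> simp
  mul_one u := by ext <;> simp
  zero_mul u := by ext <;> simp
  mul_zero u := by ext <;> simp
  mul_comm u v := by ext <;> simp <;> ring
  left_distrib u v w := by ext <;> simp <;> ring
  right_distrib u v w := by ext <;> simp <;> ring
  nsmul := nsmulRec
  zsmul := zsmulRec

end Tri

/-- There is a real number `b` with `b ^ 3 = b ^ 2 + b + 1`. -/
lemma exists_b : ∃ b : ℝ, b ^ 3 = b ^ 2 + b + 1 := by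
  have h1 : ContinuousOn (fun x : ℝ => x ^ 3 - x ^ 2 - x - 1) (Set.Icc 1 2) := by fun_prop
  have h2 := intermediate_value_Icc (by norm_num : (1 : ℝ) ≤ 2) h1
  obtain ⟨b, -, hb⟩ := h2 (show (0 : ℝ) ∈ _ by norm_num)
  exact ⟨b, by linarith⟩

/-- The real number `b` with `b ^ 3 = b ^ 2 + b + 1`. -/
noncomputable def bb : ℝ := exists_b.choose

lemma bb_eq : bb ^ 3 = bb ^ 2 + bb + 1 := exists_b.choose_spec

/-- The real embedding. -/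
noncomputable def phi : Tri →+* ℝ where
  toFun u := u.x + u.y * bb + u.z * bb ^ 2
  map_zero' := by simp
  map_one' := by simp
  map_add' u v := by
    simp only [Tri.add_x, Tri.add_y, Tri.add_z]
    push_cast
    ring
  map_mul' u v := by
    simp only [Tri.mul_x, Tri.mul_y, Tri.mul_z]
    push_cast
    linear_combination (-((u.y : ℝ) * v.z + u.z * v.y) - (u.z : ℝ) * v.z * (bb + 1)) * bb_eq

/-- The norm form. -/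
def nm (x y z : ℤ) : ℤ :=
  x * ((x + z) * (x + y + 2 * z) - (y + 2 * z) * (y + z)) -
    z * (y * (x + y + 2 * z) - z * (y + 2 * z)) + (y + z) * (y * (y + z) - z * (x + z))

lemma nm_mod (x y z : ZMod 3)
    (h : x * ((x + z) * (x + y + 2 * z) - (y + 2 * z) * (y + z)) -
      z * (y * (x + y + 2 * z) - z * (y + 2 * z)) + (y + z) * (y * (y + z) - z * (x + z)) = 0) :
    x = 0 ∧ y = 0 ∧ z = 0 := by
  revert x y z
  decide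

lemma nm_eq_zero (n : ℕ) : ∀ x y z : ℤ, x.natAbs + y.natAbs + z.natAbs ≤ n → nm x y z = 0 →
    x = 0 ∧ y = 0 ∧ z = 0 := by
  induction n with
  | zero =>
    intro x y z h _
    omega
  | succ n ih =>
    intro x y z h h0
    have h1 := nm_mod x y z (by
      have h2 := congrArg (Int.cast : ℤ → ZMod 3) h0
      unfold nm at h2
      push_cast at h2
      exact h2)
    obtain ⟨hx, hy, hz⟩ := h1
    obtain ⟨x', rfl⟩ := (ZMod.intCast_zmod_eq_zero_iff_dvd x 3).1 hx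
    obtain ⟨y', rfl⟩ := (ZMod.intCast_zmod_eq_zero_iff_dvd y 3).1 hy
    obtain ⟨z', rfl⟩ := (ZMod.intCast_zmod_eq_zero_iff_dvd z 3).1 hz
    have h3 : nm x' y' z' = 0 := by
      have h4 : 27 * nm x' y' z' = 0 := by
        rw [← h0]
        unfold nm
        push_cast
        ring
      omega
    by_cases h5 : x' = 0 ∧ y' = 0 ∧ z' = 0
    · obtain ⟨rfl, rfl, rfl⟩ := h5
      simp
    · have h6 := ih x' y' z' (by push_cast at h; omega) h3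
      exact absurd h6 h5

lemma phi_injective : Function.Injective phi := by
  rw [injective_iff_map_eq_zero]
  intro u hu
  have h1 : (u.x : ℝ) + u.y * bb + u.z * bb ^ 2 = 0 := hu
  have h2 : (nm u.x u.y u.z : ℝ) = 0 := by
    unfold nm
    push_cast
    linear_combination ((((u.x : ℝ) + u.z) * (u.x + u.y + 2 * u.z) -
      (u.y + 2 * u.z) * (u.y + u.z)) - (u.y * (u.x + u.y + 2 * u.z) -
      u.z * (u.y + 2 * u.z)) * bb + (u.y * (u.y + u.z) - u.z * (u.x + u.z)) * bb ^ 2) * h1 -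
      ((u.y : ℝ) * (u.y * (u.y + u.z) - u.z * (u.x + u.z)) -
        u.z * (u.y * (u.x + u.y + 2 * u.z) - u.z * (u.y + 2 * u.z)) +
        u.z * (u.y * (u.y + u.z) - u.z * (u.x + u.z)) * (bb + 1)) * bb_eq
  have h3 : nm u.x u.y u.z = 0 := by exact_mod_cast h2
  obtain ⟨hx, hy, hz⟩ := nm_eq_zero _ _ _ _ le_rfl h3
  exact Tri.ext hx hy hz

/-! ### The configuration with 35 points and 28 lines -/

/-- Coordinates of the 35 points. -/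
def v7 : Fin 35 → Tri × Tri × Tri :=
  ![(⟨0, 0, 0⟩, ⟨0, 0, 0⟩, ⟨1, 0, 0⟩), (⟨1, 0, 0⟩, ⟨0, 0, 0⟩, ⟨0, 0, 0⟩),
    (⟨0, 0, 0⟩, ⟨1, 0, 0⟩, ⟨0, 0, 0⟩), (⟨0, 1, 0⟩, ⟨1, 0, 0⟩, ⟨0, 0, 0⟩),
    (⟨0, 1, 0⟩, ⟨-1, 0, 0⟩, ⟨0, 0, 0⟩), (⟨1, 0, 0⟩, ⟨0, 1, 0⟩, ⟨0, 0, 0⟩),
    (⟨1, 0, 0⟩, ⟨0, -1, 0⟩, ⟨0, 0, 0⟩), (⟨1, 0, 0⟩, ⟨0, 0, 0⟩, ⟨1, 0, 0⟩),
    (⟨-1, 0, 0⟩, ⟨0, 0, 0⟩, ⟨1, 0, 0⟩), (⟨0, 0, 0⟩, ⟨1, 0, 0⟩, ⟨1, 0, 0⟩),
    (⟨0, 0, 0⟩, ⟨-1, 0, 0⟩, ⟨1, 0, 0⟩), (⟨1, 0, 0⟩, ⟨1, 0, 0⟩, ⟨1, 1, 0⟩),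
    (⟨1, 0, 0⟩, ⟨-1, 0, 0⟩, ⟨1, 1, 0⟩), (⟨-1, 0, 0⟩, ⟨1, 0, 0⟩, ⟨1, 1, 0⟩),
    (⟨-1, 0, 0⟩, ⟨-1, 0, 0⟩, ⟨1, 1, 0⟩), (⟨0, 1, 0⟩, ⟨0, 1, 0⟩, ⟨1, 1, 0⟩),
    (⟨0, 1, 0⟩, ⟨0, -1, 0⟩, ⟨1, 1, 0⟩), (⟨0, -1, 0⟩, ⟨0, 1, 0⟩, ⟨1, 1, 0⟩),
    (⟨0, -1, 0⟩, ⟨0, -1, 0⟩, ⟨1, 1, 0⟩), (⟨1, 1, 0⟩, ⟨-1, 1, 0⟩, ⟨1, 0, 1⟩),
    (⟨1, 1, 0⟩, ⟨1, -1, 0⟩, ⟨1, 0, 1⟩), (⟨-1, -1, 0⟩, ⟨-1, 1, 0⟩, ⟨1, 0, 1⟩),
    (⟨-1, -1, 0⟩, ⟨1, -1, 0⟩, ⟨1, 0, 1⟩), (⟨-1, 1, 0⟩, ⟨1, 1, 0⟩, ⟨1, 0, 1⟩),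
    (⟨-1, 1, 0⟩, ⟨-1, -1, 0⟩, ⟨1, 0, 1⟩), (⟨1, -1, 0⟩, ⟨1, 1, 0⟩, ⟨1, 0, 1⟩),
    (⟨1, -1, 0⟩, ⟨-1, -1, 0⟩, ⟨1, 0, 1⟩), (⟨0, 1, 1⟩, ⟨0, -1, 1⟩, ⟨1, 0, 1⟩),
    (⟨0, 1, 1⟩, ⟨0, 1, -1⟩, ⟨1, 0, 1⟩), (⟨0, -1, -1⟩, ⟨0, -1, 1⟩, ⟨1, 0, 1⟩),
    (⟨0, -1, -1⟩, ⟨0, 1, -1⟩, ⟨1, 0, 1⟩), (⟨0, -1, 1⟩, ⟨0, 1, 1⟩, ⟨1, 0, 1⟩),
    (⟨0, -1, 1⟩, ⟨0, -1, -1⟩, ⟨1, 0, 1⟩), (⟨0, 1, -1⟩, ⟨0, 1, 1⟩, ⟨1, 0, 1⟩),
    (⟨0, 1, -1⟩, ⟨0, -1, -1⟩, ⟨1, 0, 1⟩)]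

/-- Coordinates of the 28 lines. -/
def w7 : Fin 28 → Tri × Tri × Tri :=
  ![(⟨1, 0, 0⟩, ⟨0, 1, 0⟩, ⟨1, 0, 0⟩), (⟨1, 0, 0⟩, ⟨0, -1, 0⟩, ⟨1, 0, 0⟩),
    (⟨-1, 0, 0⟩, ⟨0, 1, 0⟩, ⟨1, 0, 0⟩), (⟨-1, 0, 0⟩, ⟨0, -1, 0⟩, ⟨1, 0, 0⟩),
    (⟨0, 1, 0⟩, ⟨1, 0, 0⟩, ⟨1, 0, 0⟩), (⟨0, 1, 0⟩, ⟨-1, 0, 0⟩, ⟨1, 0, 0⟩),
    (⟨0, -1, 0⟩, ⟨1, 0, 0⟩, ⟨1, 0, 0⟩), (⟨0, -1, 0⟩, ⟨-1, 0, 0⟩, ⟨1, 0, 0⟩),
    (⟨1, 0, 0⟩, ⟨0, 1, 0⟩, ⟨0, 1, 0⟩), (⟨1, 0, 0⟩, ⟨0, -1, 0⟩, ⟨0, 1, 0⟩),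
    (⟨-1, 0, 0⟩, ⟨0, 1, 0⟩, ⟨0, 1, 0⟩), (⟨-1, 0, 0⟩, ⟨0, -1, 0⟩, ⟨0, 1, 0⟩),
    (⟨0, 1, 0⟩, ⟨1, 0, 0⟩, ⟨0, 1, 0⟩), (⟨0, 1, 0⟩, ⟨-1, 0, 0⟩, ⟨0, 1, 0⟩),
    (⟨0, -1, 0⟩, ⟨1, 0, 0⟩, ⟨0, 1, 0⟩), (⟨0, -1, 0⟩, ⟨-1, 0, 0⟩, ⟨0, 1, 0⟩),
    (⟨1, 1, 0⟩, ⟨0, 0, 0⟩, ⟨1, 0, 0⟩), (⟨-1, -1, 0⟩, ⟨0, 0, 0⟩, ⟨1, 0, 0⟩),
    (⟨0, 0, 0⟩, ⟨1, 1, 0⟩, ⟨1, 0, 0⟩), (⟨0, 0, 0⟩, ⟨-1, -1, 0⟩, ⟨1, 0, 0⟩),
    (⟨1, 1, 0⟩, ⟨0, 0, 0⟩, ⟨0, 1, 0⟩), (⟨-1, -1, 0⟩, ⟨0, 0, 0⟩, ⟨0, 1, 0⟩),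
    (⟨0, 0, 0⟩, ⟨1, 1, 0⟩, ⟨0, 1, 0⟩), (⟨0, 0, 0⟩, ⟨-1, -1, 0⟩, ⟨0, 1, 0⟩),
    (⟨-1, 1, 0⟩, ⟨1, 1, 0⟩, ⟨0, 0, 0⟩), (⟨-1, 1, 0⟩, ⟨-1, -1, 0⟩, ⟨0, 0, 0⟩),
    (⟨1, 1, 0⟩, ⟨-1, 1, 0⟩, ⟨0, 0, 0⟩), (⟨1, 1, 0⟩, ⟨1, -1, 0⟩, ⟨0, 0, 0⟩)]

/-- A geometric configuration `((5r)_4, (4r)_5)` exists for `r = 7`. -/
theorem exists_config : ∃ P L, IsConfig 7 P L :=
  config_of phi phi_injective v7 w7 (by norm_num) (by norm_num)
    (by decide +kernel) (by decide +kernel) (by decide +kernel) (by decide +kernel)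
    (by decide +kernel) (by decide +kernel)

end Pool.Agent.Lib.MP_ec4eff_co.Seven
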