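import Mathlib

/-! Geometric configurations of points and lines in the real projective plane with four lines
through every point and five points on every line. -/

namespace Pool.Agent.Lib.MP_ec4eff_co.Six

open scoped LinearAlgebra.Projectivization

/-- The points of the real projective plane. -/
abbrev Pt : Type := ℙ ℝ (Fin 3 → ℝ)

/-- The lines of the real projective plane: the planes through the origin of the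
three-dimensional space. -/
abbrev Ln : Type := {W : Submodule ℝ (Fin 3 → ℝ) // Module.finrank ℝ W = 2}

/-- The point `p` lies on the line `l`. -/
def Inc (p : Pt) (l : Ln) : Prop := p.submodule ≤ l.1

/-- `P` and `L` form a geometric configuration `((5r)_4, (4r)_5)`. -/
def IsConfig (r : ℕ) (P : Set Pt) (L : Set Ln) : Prop :=
  P.Finite ∧ L.Finite ∧ P.ncard = 5 * r ∧ L.ncard = 4 * r ∧
    (∀ p ∈ P, {l | l ∈ L ∧ Inc p l}.ncard = 4) ∧ ∀ l ∈ L, {p | p ∈ P ∧ Inc p l}.ncard = 5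

/-! ### From coordinates to configurations -/

section Coord

variable {R : Type} [CommRing R]

/-- The dot product of two triples. -/
def dot (u v : R × R × R) : R := u.1 * v.1 + u.2.1 * v.2.1 + u.2.2 * v.2.2

variable (φ : R →+* ℝ)

/-- The real vector of a triple. -/
def vec (u : R × R × R) : Fin 3 → ℝ := ![φ u.1, φ u.2.1, φ u.2.2]

/-- The linear form of a triple. -/
noncomputable def form (u : R × R × R) : (Fin 3 → ℝ) →ₗ[ℝ] ℝ :=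
  φ u.1 • LinearMap.proj 0 + φ u.2.1 • LinearMap.proj 1 + φ u.2.2 • LinearMap.proj 2

lemma form_vec (u v : R × R × R) : form φ u (vec φ v) = φ (dot v u) := by
  simp only [form, vec, dot, LinearMap.add_apply, LinearMap.smul_apply, LinearMap.proj_apply,
    map_add, map_mul, smul_eq_mul]
  simp
  ring

variable (hφ : Function.Injective φ)

include hφ in
lemma vec_ne {u : R × R × R} (h : u ≠ 0) : vec φ u ≠ 0 := by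
  intro h0
  apply h
  have h1 : φ u.1 = 0 := by simpa [vec] using congrFun h0 0
  have h2 : φ u.2.1 = 0 := by simpa [vec] using congrFun h0 1
  have h3 : φ u.2.2 = 0 := by simpa [vec] using congrFun h0 2
  have e1 := hφ (h1.trans (map_zero φ).symm)
  have e2 := hφ (h2.trans (map_zero φ).symm)
  have e3 := hφ (h3.trans (map_zero φ).symm)
  exact Prod.ext e1 (Prod.ext e2 e3)

include hφ in
lemma form_ne {u : R × R × R} (h : u ≠ 0) : form φ u ≠ 0 := by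
  intro h0
  apply h
  have h1 : φ u.1 = 0 := by
    simpa [form] using LinearMap.congr_fun h0 ![1, 0, 0]
  have h2 : φ u.2.1 = 0 := by
    simpa [form] using LinearMap.congr_fun h0 ![0, 1, 0]
  have h3 : φ u.2.2 = 0 := by
    simpa [form] using LinearMap.congr_fun h0 ![0, 0, 1]
  have e1 := hφ (h1.trans (map_zero φ).symm)
  have e2 := hφ (h2.trans (map_zero φ).symm)
  have e3 := hφ (h3.trans (map_zero φ).symm)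
  exact Prod.ext e1 (Prod.ext e2 e3)

lemma finrank_ker_form {f : (Fin 3 → ℝ) →ₗ[ℝ] ℝ} (hf : f ≠ 0) :
    Module.finrank ℝ (LinearMap.ker f) = 2 := by
  have h1 := f.finrank_range_add_finrank_ker
  have h2 : LinearMap.range f = ⊤ := LinearMap.range_eq_top.2 (LinearMap.surjective hf)
  rw [h2, finrank_top, Module.finrank_self, Module.finrank_fin_fun] at h1
  omega

/-- The point with given coordinates. -/
noncomputable def pt (u : R × R × R) (h : u ≠ 0) : Pt :=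
  Projectivization.mk ℝ (vec φ u) (vec_ne φ hφ h)

/-- The line with given coordinates. -/
noncomputable def ln (u : R × R × R) (h : u ≠ 0) : Ln :=
  ⟨LinearMap.ker (form φ u), finrank_ker_form (form_ne φ hφ h)⟩

lemma inc_iff {u v : R × R × R} (hu : u ≠ 0) (hv : v ≠ 0) :
    Inc (pt φ hφ u hu) (ln φ hφ v hv) ↔ dot u v = 0 := by
  unfold Inc pt ln
  rw [Projectivization.submodule_mk, Submodule.span_singleton_le_iff_mem, LinearMap.mem_ker,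
    form_vec, map_eq_zero_iff φ hφ]

include φ hφ in
/-- A combinatorial criterion. -/
theorem config_of [DecidableEq R] {np nl r : ℕ} (v : Fin np → R × R × R) (w : Fin nl → R × R × R)
    (hnp : np = 5 * r) (hnl : nl = 4 * r)
    (hv : ∀ i, v i ≠ 0) (hw : ∀ j, w j ≠ 0)
    (hvd : ∀ i i', i ≠ i' → ∃ j, dot (v i) (w j) = 0 ∧ dot (v i') (w j) ≠ 0)
    (hwd : ∀ j j', j ≠ j' → ∃ i, dot (v i) (w j) = 0 ∧ dot (v i) (w j') ≠ 0)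
    (h4 : ∀ i, (Finset.univ.filter fun j => dot (v i) (w j) = 0).card = 4)
    (h5 : ∀ j, (Finset.univ.filter fun i => dot (v i) (w j) = 0).card = 5) :
    ∃ P L, IsConfig r P L := by
  classical
  let p : Fin np → Pt := fun i => pt φ hφ (v i) (hv i)
  let l : Fin nl → Ln := fun j => ln φ hφ (w j) (hw j)
  have hinc : ∀ i j, Inc (p i) (l j) ↔ dot (v i) (w j) = 0 := fun i j => inc_iff φ hφ _ _
  have hp : Function.Injective p := by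
    intro i i' h
    by_contra hne
    obtain ⟨j, h1, h2⟩ := hvd i i' hne
    rw [← hinc] at h1
    rw [ne_eq, ← hinc, ← h] at h2
    exact h2 h1
  have hl : Function.Injective l := by
    intro j j' h
    by_contra hne
    obtain ⟨i, h1, h2⟩ := hwd j j' hne
    rw [← hinc] at h1
    rw [ne_eq, ← hinc, ← h] at h2
    exact h2 h1
  refine ⟨Set.range p, Set.range l, Set.finite_range p, Set.finite_range l, ?_, ?_, ?_, ?_⟩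
  · rw [← Set.image_univ, Set.ncard_image_of_injective _ hp, Set.ncard_univ, Nat.card_fin, hnp]
  · rw [← Set.image_univ, Set.ncard_image_of_injective _ hl, Set.ncard_univ, Nat.card_fin, hnl]
  · rintro _ ⟨i, rfl⟩
    have : {m | m ∈ Set.range l ∧ Inc (p i) m} =
        l '' (Finset.univ.filter fun j => dot (v i) (w j) = 0 : Finset (Fin nl)) := by
      ext m
      constructor
      · rintro ⟨⟨j, rfl⟩, hj⟩
        exact ⟨j, by simpa using (hinc i j).1 hj, rfl⟩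
      · rintro ⟨j, hj, rfl⟩
        exact ⟨⟨j, rfl⟩, (hinc i j).2 (by simpa using hj)⟩
    rw [this, Set.ncard_image_of_injective _ hl, Set.ncard_coe_finset, h4]
  · rintro _ ⟨j, rfl⟩
    have : {m | m ∈ Set.range p ∧ Inc m (l j)} =
        p '' (Finset.univ.filter fun i => dot (v i) (w j) = 0 : Finset (Fin np)) := by
      ext m
      constructor
      · rintro ⟨⟨i, rfl⟩, hi⟩
        exact ⟨i, by simpa using (hinc i j).1 hi, rfl⟩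
      · rintro ⟨i, hi, rfl⟩
        exact ⟨⟨i, rfl⟩, (hinc i j).2 (by simpa using hi)⟩
    rw [this, Set.ncard_image_of_injective _ hp, Set.ncard_coe_finset, h5]

end Coord

/-! ### The configuration with 30 points and 24 lines -/

/-- Coordinates of the 30 points. -/
def v6 : Fin 30 → ℤ√2 × ℤ√2 × ℤ√2 :=
  ![(⟨1, 0⟩, ⟨-1, 0⟩, ⟨0, 0⟩), (⟨1, 0⟩, ⟨1, 0⟩, ⟨0, 0⟩),
    (⟨1, 0⟩, ⟨0, 0⟩, ⟨-1, 0⟩), (⟨1, 0⟩, ⟨0, 0⟩, ⟨1, 0⟩),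
    (⟨0, 0⟩, ⟨1, 0⟩, ⟨-1, 0⟩), (⟨0, 0⟩, ⟨1, 0⟩, ⟨1, 0⟩),
    (⟨0, 0⟩, ⟨1, 0⟩, ⟨-1, 1⟩), (⟨0, 0⟩, ⟨1, 0⟩, ⟨1, -1⟩),
    (⟨0, 0⟩, ⟨-1, 1⟩, ⟨1, 0⟩), (⟨0, 0⟩, ⟨-1, 1⟩, ⟨-1, 0⟩),
    (⟨1, 0⟩, ⟨0, 0⟩, ⟨-1, 1⟩), (⟨1, 0⟩, ⟨0, 0⟩, ⟨1, -1⟩),
    (⟨1, 0⟩, ⟨-1, 1⟩, ⟨0, 0⟩), (⟨1, 0⟩, ⟨1, -1⟩, ⟨0, 0⟩),
    (⟨-1, 1⟩, ⟨0, 0⟩, ⟨1, 0⟩), (⟨-1, 1⟩, ⟨0, 0⟩, ⟨-1, 0⟩),
    (⟨-1, 1⟩, ⟨1, 0⟩, ⟨0, 0⟩), (⟨-1, 1⟩, ⟨-1, 0⟩, ⟨0, 0⟩),
    (⟨1, 0⟩, ⟨1, 0⟩, ⟨0, 1⟩), (⟨1, 0⟩, ⟨1, 0⟩, ⟨0, -1⟩),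
    (⟨1, 0⟩, ⟨-1, 0⟩, ⟨0, 1⟩), (⟨1, 0⟩, ⟨-1, 0⟩, ⟨0, -1⟩),
    (⟨1, 0⟩, ⟨0, 1⟩, ⟨1, 0⟩), (⟨1, 0⟩, ⟨0, 1⟩, ⟨-1, 0⟩),
    (⟨1, 0⟩, ⟨0, -1⟩, ⟨1, 0⟩), (⟨1, 0⟩, ⟨0, -1⟩, ⟨-1, 0⟩),
    (⟨0, 1⟩, ⟨1, 0⟩, ⟨1, 0⟩), (⟨0, 1⟩, ⟨1, 0⟩, ⟨-1, 0⟩),
    (⟨0, 1⟩, ⟨-1, 0⟩, ⟨1, 0⟩), (⟨0, 1⟩, ⟨-1, 0⟩, ⟨-1, 0⟩)]

/-- Coordinates of the 24 lines. -/
def w6 : Fin 24 → ℤ√2 × ℤ√2 × ℤ√2 :=
  ![(⟨1, 0⟩, ⟨1, 0⟩, ⟨-1, 1⟩), (⟨1, 0⟩, ⟨1, 0⟩, ⟨1, -1⟩),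
    (⟨1, 0⟩, ⟨-1, 0⟩, ⟨-1, 1⟩), (⟨1, 0⟩, ⟨-1, 0⟩, ⟨1, -1⟩),
    (⟨1, 0⟩, ⟨-1, 1⟩, ⟨1, 0⟩), (⟨1, 0⟩, ⟨-1, 1⟩, ⟨-1, 0⟩),
    (⟨1, 0⟩, ⟨1, -1⟩, ⟨1, 0⟩), (⟨1, 0⟩, ⟨1, -1⟩, ⟨-1, 0⟩),
    (⟨-1, 1⟩, ⟨1, 0⟩, ⟨1, 0⟩), (⟨-1, 1⟩, ⟨1, 0⟩, ⟨-1, 0⟩),
    (⟨-1, 1⟩, ⟨-1, 0⟩, ⟨1, 0⟩), (⟨-1, 1⟩, ⟨-1, 0⟩, ⟨-1, 0⟩),
    (⟨1, 0⟩, ⟨1, 0⟩, ⟨1, 1⟩), (⟨1, 0⟩, ⟨1, 0⟩, ⟨-1, -1⟩),
    (⟨1, 0⟩, ⟨-1, 0⟩, ⟨1, 1⟩), (⟨1, 0⟩, ⟨-1, 0⟩, ⟨-1, -1⟩),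
    (⟨1, 0⟩, ⟨1, 1⟩, ⟨1, 0⟩), (⟨1, 0⟩, ⟨1, 1⟩, ⟨-1, 0⟩),
    (⟨1, 0⟩, ⟨-1, -1⟩, ⟨1, 0⟩), (⟨1, 0⟩, ⟨-1, -1⟩, ⟨-1, 0⟩),
    (⟨1, 1⟩, ⟨1, 0⟩, ⟨1, 0⟩), (⟨1, 1⟩, ⟨1, 0⟩, ⟨-1, 0⟩),
    (⟨1, 1⟩, ⟨-1, 0⟩, ⟨1, 0⟩), (⟨1, 1⟩, ⟨-1, 0⟩, ⟨-1, 0⟩)]

/-- The ring homomorphism sending the generator to the square root of two. -/
noncomputable def phi : ℤ√2 →+* ℝ :=
  Zsqrtd.lift ⟨Real.sqrt 2, by norm_num⟩

lemma phi_injective : Function.Injective phi := by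
  apply Zsqrtd.lift_injective
  intro n h
  have h1 : n ≤ 1 := by nlinarith
  have h2 : -1 ≤ n := by nlinarith
  interval_cases n <;> omega

/-- A geometric configuration `((5r)_4, (4r)_5)` exists for `r = 6`. -/
theorem exists_config : ∃ P L, IsConfig 6 P L :=
  config_of phi phi_injective v6 w6 (by norm_num) (by norm_num) (by decide +kernel)
    (by decide +kernel) (by decide +kernel) (by decide +kernel) (by decide +kernel)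
    (by decide +kernel)

end Pool.Agent.Lib.MP_ec4eff_co.Six
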